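import Mathlib

/-!
# Metric graph bundles over a ray, Gromov boundaries, Cannon-Thurston maps

Definitions for problem MP_142684_al. Graphs are simple graphs, regarded through their vertex sets
with the path metric `SimpleGraph.dist`; all notions below (Gromov hyperbolicity, Gromov boundary,
quasi-isometry) may be expressed on the vertex sets.
-/

namespace Pool.Agent.Helper95.CT

open SimpleGraph Filter

variable {V W : Type*}

/-- Gromov product of the vertices `x`, `y` of a graph, based at `w`. -/
noncomputable def gp (G : SimpleGraph V) (w x y : V) : ℝ :=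
  ((G.dist w x : ℝ) + G.dist w y - G.dist x y) / 2

/-- Gromov hyperbolicity of a (connected) graph: the four point condition. -/
def Hyperbolic (G : SimpleGraph V) : Prop :=
  ∃ δ : ℝ, ∀ w x y z : V, min (gp G w x y) (gp G w y z) - δ ≤ gp G w x z

/-- The sequence of vertices `x` converges at infinity: `(x_m | x_n)_w → ∞` as `m, n → ∞`. -/
def ConvInf (G : SimpleGraph V) (x : ℕ → V) : Prop :=
  ∀ w, Tendsto (fun p : ℕ × ℕ => gp G w (x p.1) (x p.2)) atTop atTop

/-- The Gromov boundary: sequences converging at infinity, two sequences `x`, `y` being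
identified when `(x_n | y_n)_w → ∞`. -/
def Boundary (G : SimpleGraph V) : Type _ :=
  Quot (fun x y : {x : ℕ → V // ConvInf G x} =>
    ∀ w, Tendsto (fun n => gp G w (x.1 n) (y.1 n)) atTop atTop)

/-- The point of the Gromov boundary to which the sequence `x` converges. -/
def Boundary.mk (G : SimpleGraph V) (x : ℕ → V) (hx : ConvInf G x) : Boundary G :=
  Quot.mk _ ⟨x, hx⟩

/-- The fibre of `π` over the vertex `i` of the ray. -/
abbrev fiber (X : SimpleGraph V) (π : V → ℕ) (i : ℕ) : SimpleGraph {x : V // π x = i} :=
  X.induce {x | π x = i}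

/-- `π : X → [0, ∞)` is a metric graph bundle over the ray with vertices `0, 1, 2, …`. -/
structure IsMetricGraphBundle (X : SimpleGraph V) (π : V → ℕ) : Prop where
  /-- `X` is a connected graph -/
  connected : X.Connected
  /-- `π` is simplicial: an edge is mapped to a vertex or to an edge of the ray -/
  simplicial : ∀ x y, X.Adj x y → π x = π y ∨ π x = π y + 1 ∨ π y = π x + 1
  /-- `π` is surjective -/
  surjective : Function.Surjective π
  /-- the fibres are connected subgraphs -/
  fiber_connected : ∀ i, (fiber X π i).Connected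
  /-- the fibres are uniformly properly embedded -/
  proper : ∃ f : ℕ → ℕ, ∀ i (x y : {x : V // π x = i}),
    (fiber X π i).dist x y ≤ f (X.dist (x : V) (y : V))
  /-- every vertex of `F_i` is joined by an edge to a vertex of `F_{i+1}` -/
  up : ∀ x, ∃ y, X.Adj x y ∧ π y = π x + 1
  /-- every vertex of `F_{i+1}` is joined by an edge to a vertex of `F_i` -/
  down : ∀ y, 0 < π y → ∃ x, X.Adj y x ∧ π y = π x + 1

/-- `φ` is a `K`-quasi-isometry between (the vertex sets of) the graphs `G` and `H`. -/
def IsQI (G : SimpleGraph V) (H : SimpleGraph W) (K : ℝ) (φ : V → W) : Prop :=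
  (∀ x y, (G.dist x y : ℝ) / K - K ≤ H.dist (φ x) (φ y) ∧
    (H.dist (φ x) (φ y) : ℝ) ≤ K * G.dist x y + K) ∧
  ∀ z, ∃ x, (H.dist z (φ x) : ℝ) ≤ K

/-- `T` is the simplicial tree `F` of the problem, with root `u`: a tree whose root has finite
(nonzero) valence and in which every vertex at distance `n ≥ 1` from the root has valence
`n + 2`. -/
structure IsTreeF (T : SimpleGraph W) (u : W) : Prop where
  isTree : T.IsTree
  root_nonempty : (T.neighborSet u).Nonempty
  root_finite : (T.neighborSet u).Finite
  valence : ∀ v, v ≠ u → (T.neighborSet v).ncard = T.dist u v + 2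

/-- The fibres of `π` are uniformly quasi-isometric to the graph `T`. -/
def FibersUniformlyQI (X : SimpleGraph V) (π : V → ℕ) (T : SimpleGraph W) : Prop :=
  ∃ K : ℝ, 1 ≤ K ∧ ∀ i, ∃ φ : {x : V // π x = i} → W, IsQI (fiber X π i) T K φ

/-- `g` is the Cannon-Thurston map of the inclusion `π⁻¹(0) → X`: together with the inclusion it
is a continuous extension to the boundaries, that is, whenever a sequence of vertices of
`π⁻¹(0)` converges (in `π⁻¹(0)`) to a boundary point `ξ`, the same sequence converges in `X` to
the boundary point `g ξ`. -/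
def IsCTMap (X : SimpleGraph V) (π : V → ℕ) (g : Boundary (fiber X π 0) → Boundary X) : Prop :=
  ∀ (x : ℕ → {x : V // π x = 0}) (hx : ConvInf (fiber X π 0) x),
    ∃ h : ConvInf X (fun n => (x n : V)),
      g (Boundary.mk (fiber X π 0) x hx) = Boundary.mk X (fun n => (x n : V)) h

end Pool.Agent.Helper95.CT
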