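import Mathlib
import Pool.Agent.Helper95.CT.Defs

/-!
# Rooted trees: parents, descendants, ball counts

Facts on the tree `F` of problem MP_142684_al: a root `u` of finite nonzero valence, and every
vertex at distance `n ≥ 1` from the root has valence `n + 2`.
-/

namespace Pool.Agent.Helper95.CT

open SimpleGraph

variable {W : Type*}

/-! ### General counting lemmas -/

lemma cover_card {α β : Type*} (S : Set α) (C : Set β) (hC : C.Finite) (g : β → Set α) (n : ℕ)
    (hg : ∀ b ∈ C, (g b).Finite ∧ (g b).ncard ≤ n) (hS : S ⊆ ⋃ b ∈ C, g b) :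
    S.Finite ∧ S.ncard ≤ C.ncard * n := by
  classical
  have hfin : (⋃ b ∈ C, g b).Finite := hC.biUnion (fun b hb => (hg b hb).1)
  refine ⟨hfin.subset hS, ?_⟩
  refine (Set.ncard_le_ncard hS hfin).trans ?_
  revert hg
  refine Set.Finite.induction_on C hC ?_ ?_
  · intro _ ; simp
  · intro a s ha hs ih hg
    have h1 := ih (fun b hb => hg b (Set.mem_insert_of_mem _ hb))
    rw [Set.biUnion_insert, Set.ncard_insert_of_notMem ha hs]
    refine (Set.ncard_union_le _ _).trans ?_
    have := (hg a (Set.mem_insert _ _)).2
    calc _ ≤ n + s.ncard * n := by gcongr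
      _ = _ := by ring

lemma fiber_card {α β : Type*} (S : Set α) (hS : S.Finite) (C : Set β) (hC : C.Finite) (g : α → β)
    (n : ℕ) (hg : ∀ b ∈ C, n ≤ {a ∈ S | g a = b}.ncard) :
    C.ncard * n ≤ S.ncard := by
  classical
  revert hg
  induction C, hC using Set.Finite.induction_on generalizing S with
  | empty => intro _; simp
  | @insert b s hb hs ih =>
    intro hg
    have h0 : {a ∈ S | g a ≠ b}.Finite := hS.subset (Set.sep_subset _ _)
    have h1 := ih {a ∈ S | g a ≠ b} h0 (by
      intro c hc
      have hcb : c ≠ b := fun h => hb (h ▸ hc)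
      have := hg c (Set.mem_insert_of_mem _ hc)
      refine this.trans (Set.ncard_le_ncard ?_ (h0.subset (Set.sep_subset _ _)))
      rintro a ⟨ha, hab⟩
      exact ⟨⟨ha, by rw [hab]; exact hcb⟩, hab⟩)
    rw [Set.ncard_insert_of_notMem hb hs]
    have h2 := hg b (Set.mem_insert _ _)
    have h3 : {a ∈ S | g a ≠ b}.ncard + {a ∈ S | g a = b}.ncard = S.ncard := by
      rw [← Set.ncard_union_eq (by
        rw [Set.disjoint_left]; rintro a ⟨_, h⟩ ⟨_, h'⟩; exact h h') h0
        (hS.subset (Set.sep_subset _ _))]
      congr 1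
      ext a
      constructor
      · rintro (h | h)
        · exact h.1
        · exact h.1
      · intro h
        by_cases hh : g a = b
        · exact Or.inr ⟨h, hh⟩
        · exact Or.inl ⟨h, hh⟩
    calc (s.ncard + 1) * n = s.ncard * n + n := by ring
      _ ≤ {a ∈ S | g a ≠ b}.ncard + {a ∈ S | g a = b}.ncard := by gcongr
      _ = _ := h3

/-! ### Parents -/

open Classical in
/-- The neighbour of `v` which is closer to the root `u` (and `u` itself for `v = u`). -/
noncomputable def par (T : SimpleGraph W) (u v : W) : W :=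
  if h : ∃ w, T.Adj v w ∧ T.dist u w + 1 = T.dist u v then h.choose else v

section tree

variable {T : SimpleGraph W} {u : W}

lemma par_root : par T u u = u := by
  unfold par
  rw [dif_neg]
  rintro ⟨w, _, h⟩
  simp at h

lemma exists_par (hT : T.Connected) {v : W} (hv : v ≠ u) :
    ∃ w, T.Adj v w ∧ T.dist u w + 1 = T.dist u v := by
  obtain ⟨p, hp⟩ := hT.exists_walk_length_eq_dist v u
  cases p with
  | nil => exact absurd rfl hv
  | @cons _ w _ hadj q =>
    refine ⟨w, hadj, ?_⟩
    rw [Walk.length_cons] at hp
    have h1 : T.dist u w ≤ q.length := by rw [dist_comm]; exact dist_le q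
    have h2 : T.dist u v ≤ T.dist u w + T.dist w v := hT.dist_triangle
    have h3 : T.dist w v = 1 := dist_eq_one_iff_adj.2 hadj.symm
    rw [dist_comm] at hp
    omega

lemma par_spec (hT : T.Connected) {v : W} (hv : v ≠ u) :
    T.Adj v (par T u v) ∧ T.dist u (par T u v) + 1 = T.dist u v := by
  unfold par
  rw [dif_pos (exists_par hT hv)]
  exact (exists_par hT hv).choose_spec

lemma par_unique (hT : T.IsTree) {v w w' : W} (h : T.Adj v w) (h' : T.Adj v w')
    (hd : T.dist u w + 1 = T.dist u v) (hd' : T.dist u w' + 1 = T.dist u v) : w = w' := by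
  classical
  obtain ⟨p, hp, hpl⟩ := hT.connected.exists_path_of_dist u w
  obtain ⟨q, hq, hql⟩ := hT.connected.exists_path_of_dist u w'
  have hvp : v ∉ p.support := by
    intro hv
    have h1 := dist_le (p.takeUntil v hv)
    have h2 := p.length_takeUntil_le_length hv
    omega
  have hvq : v ∉ q.support := by
    intro hv
    have h1 := dist_le (q.takeUntil v hv)
    have h2 := q.length_takeUntil_le_length hv
    omega
  have hP := hp.concat hvp h.symm
  have hQ := hq.concat hvq h'.symm
  have := (hT.existsUnique_path u v).unique hP hQ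
  have h3 := congrArg Walk.penultimate this
  simpa using h3

lemma par_eq (hT : T.IsTree) {v w : W} (h : T.Adj v w) (hd : T.dist u w + 1 = T.dist u v) :
    par T u v = w := by
  have hv : v ≠ u := by
    rintro rfl
    simp at hd
  have h1 := par_spec hT.connected hv
  exact par_unique hT h1.1 h h1.2 hd

lemma height_par (hT : T.Connected) (v : W) : T.dist u (par T u v) = T.dist u v - 1 := by
  by_cases hv : v = u
  · subst hv; rw [par_root]; simp
  · have := (par_spec hT hv).2
    omega

lemma height_par_iter (hT : T.Connected) (v : W) (a : ℕ) :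
    T.dist u ((par T u)^[a] v) = T.dist u v - a := by
  induction a with
  | zero => simp
  | succ a ih =>
    rw [Function.iterate_succ_apply', height_par hT, ih]
    omega

lemma dist_par_le (hT : T.Connected) (v : W) : T.dist v (par T u v) ≤ 1 := by
  by_cases hv : v = u
  · subst hv; rw [par_root]; simp
  · rw [dist_eq_one_iff_adj.2 (par_spec hT hv).1]

lemma dist_par_iter_le (hT : T.Connected) (v : W) (a : ℕ) :
    T.dist v ((par T u)^[a] v) ≤ a := by
  induction a with
  | zero => simp
  | succ a ih =>
    rw [Function.iterate_succ_apply']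
    exact (hT.dist_triangle (v := (par T u)^[a] v)).trans (add_le_add ih (dist_par_le hT _))

/-- Every walk passes through a common ancestor. -/
lemma walk_common (hT : T.IsTree) {x y : W} (p : T.Walk x y) :
    ∃ a b, a + b ≤ p.length ∧ (par T u)^[a] x = (par T u)^[b] y := by
  induction p with
  | nil => exact ⟨0, 0, by simp, rfl⟩
  | @cons x x' y hadj q ih =>
    obtain ⟨a, b, hab, he⟩ := ih
    rw [Walk.length_cons]
    rcases hT.dist_eq_dist_add_one_of_adj u hadj with h | h
    · -- `x' = par x`
      have hp : par T u x = x' := par_eq hT hadj h.symm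
      refine ⟨a + 1, b, by omega, ?_⟩
      rw [Function.iterate_succ_apply, hp, he]
    · have hp : par T u x' = x := par_eq hT hadj.symm h.symm
      cases a with
      | zero =>
        refine ⟨0, b + 1, by omega, ?_⟩
        rw [Function.iterate_succ_apply', ← he]
        simp [hp]
      | succ a =>
        refine ⟨a, b, by omega, ?_⟩
        rw [← he, Function.iterate_succ_apply, hp]

lemma dist_common (hT : T.IsTree) (x y : W) :
    ∃ a b, a + b = T.dist x y ∧ (par T u)^[a] x = (par T u)^[b] y := by
  obtain ⟨p, hp⟩ := hT.connected.exists_walk_length_eq_dist x y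
  obtain ⟨a, b, hab, he⟩ := walk_common (u := u) hT p
  refine ⟨a, b, ?_, he⟩
  have h1 : T.dist x y ≤ T.dist x ((par T u)^[a] x) + T.dist ((par T u)^[a] x) y :=
    hT.connected.dist_triangle
  have h2 := dist_par_iter_le (u := u) hT.connected x a
  have h3 := dist_par_iter_le (u := u) hT.connected y b
  rw [he] at h1 h2
  rw [dist_comm (u := (par T u)^[b] y)] at h1
  omega

/-- If `w` is at distance `s` from `q` and `s` levels deeper then `q` is an ancestor of `w`. -/
lemma anc_of_dist (hT : T.IsTree) {q w : W} {s : ℕ} (hh : T.dist u w = T.dist u q + s)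
    (hd : T.dist q w = s) : (par T u)^[s] w = q := by
  obtain ⟨a, b, hab, he⟩ := dist_common (u := u) hT w q
  have h1 := height_par_iter (u := u) hT.connected w a
  have h2 := height_par_iter (u := u) hT.connected q b
  rw [dist_comm] at hd
  rw [he] at h1
  have hb : b = 0 := by omega
  subst hb
  have ha : a = s := by omega
  subst ha
  simpa using he

end tree

/-! ### Children, balls, descendants -/

section count

variable {T : SimpleGraph W} {u : W}

/-- The children of `w`. -/
def children (T : SimpleGraph W) (u w : W) : Set W := {c | T.Adj w c ∧ T.dist u c = T.dist u w + 1}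

lemma par_of_mem_children (hT : T.IsTree) {w c : W} (hc : c ∈ children T u w) :
    par T u c = w := par_eq hT hc.1.symm hc.2.symm

lemma neighborSet_finite (hF : IsTreeF T u) (v : W) : (T.neighborSet v).Finite := by
  by_cases hv : v = u
  · subst hv; exact hF.root_finite
  · apply Set.finite_of_ncard_pos
    rw [hF.valence v hv]
    omega

lemma children_finite (hF : IsTreeF T u) (v : W) : (children T u v).Finite :=
  (neighborSet_finite hF v).subset (fun _ hc => hc.1)

lemma valence_le (hF : IsTreeF T u) (v : W) :
    (T.neighborSet v).ncard ≤ T.dist u v + 2 + (T.neighborSet u).ncard := by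
  by_cases hv : v = u
  · subst hv; omega
  · rw [hF.valence v hv]; omega

lemma children_card (hF : IsTreeF T u) (v : W) :
    T.dist u v + 1 ≤ (children T u v).ncard := by
  by_cases hv : v = u
  · subst hv
    rw [dist_self, zero_add, Nat.succ_le_iff, Set.ncard_pos (children_finite hF _)]
    obtain ⟨c, hc⟩ := hF.root_nonempty
    refine ⟨c, hc, ?_⟩
    rw [dist_self, zero_add]
    exact dist_eq_one_iff_adj.2 hc
  · have h1 : T.neighborSet v ⊆ insert (par T u v) (children T u v) := by
      intro w hw
      rcases hF.isTree.dist_eq_dist_add_one_of_adj u hw with h | h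
      · left
        exact (par_eq hF.isTree hw h.symm).symm
      · right
        exact ⟨hw, h⟩
    have h2 := Set.ncard_le_ncard h1 ((children_finite hF v).insert _)
    have h3 := Set.ncard_insert_le (par T u v) (children T u v)
    rw [hF.valence v hv] at h2
    omega

/-- Closed balls. -/
def cball (T : SimpleGraph W) (v : W) (b : ℕ) : Set W := {w | T.dist v w ≤ b}

lemma height_le_of_dist (hT : T.Connected) {v w : W} {b : ℕ} (h : T.dist v w ≤ b) :
    T.dist u w ≤ T.dist u v + b :=
  (hT.dist_triangle (v := v)).trans (by omega)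

lemma cball_card (hF : IsTreeF T u) (v : W) (b : ℕ) :
    (cball T v b).Finite ∧
      (cball T v b).ncard ≤ (T.dist u v + b + (T.neighborSet u).ncard + 3) ^ b := by
  induction b with
  | zero =>
    have : cball T v 0 = {v} := by
      ext w
      simp only [cball, Set.mem_ofPred_eq, Nat.le_zero, Set.mem_singleton_iff]
      rw [hF.isTree.connected.dist_eq_zero_iff]
      exact eq_comm
    rw [this]
    simp
  | succ b ih =>
    have hcov : cball T v (b + 1) ⊆ ⋃ w ∈ cball T v b, insert w (T.neighborSet w) := by
      intro y hy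
      simp only [Set.mem_iUnion, exists_prop]
      by_cases hyv : v = y
      · subst hyv
        exact ⟨v, by simp [cball], Set.mem_insert _ _⟩
      · obtain ⟨w, hw, hd⟩ := exists_par (u := v) hF.isTree.connected (Ne.symm hyv)
        refine ⟨w, ?_, Or.inr hw.symm⟩
        simp only [cball, Set.mem_ofPred_eq] at hy ⊢
        omega
    have h1 := cover_card (cball T v (b + 1)) (cball T v b) ih.1
      (fun w => insert w (T.neighborSet w))
      (T.dist u v + b + (T.neighborSet u).ncard + 3) (by
        intro w hw
        refine ⟨(neighborSet_finite hF w).insert _, ?_⟩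
        have h1 := Set.ncard_insert_le w (T.neighborSet w)
        have h2 := valence_le hF w
        have h3 := height_le_of_dist (u := u) hF.isTree.connected (show T.dist v w ≤ b from hw)
        omega) hcov
    refine ⟨h1.1, h1.2.trans ?_⟩
    rw [pow_succ]
    apply Nat.mul_le_mul
    · refine ih.2.trans ?_
      gcongr
      omega
    · omega

/-- Descendants of `q` exactly `s` levels below `q`. -/
def Dsc (T : SimpleGraph W) (u q : W) (s : ℕ) : Set W :=
  {w | T.dist u w = T.dist u q + s ∧ T.dist q w = s}

lemma Dsc_finite (hF : IsTreeF T u) (q : W) (s : ℕ) : (Dsc T u q s).Finite :=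
  (cball_card hF q s).1.subset (fun _ hw => hw.2.le)

lemma child_mem_Dsc (hT : T.IsTree) {q w c : W} {s : ℕ} (hw : w ∈ Dsc T u q s)
    (hc : c ∈ children T u w) : c ∈ Dsc T u q (s + 1) := by
  have h1 : T.dist u c = T.dist u q + (s + 1) := by rw [hc.2, hw.1]; ring
  refine ⟨h1, ?_⟩
  have h2 : T.dist q c ≤ T.dist q w + T.dist w c := hT.connected.dist_triangle
  have h3 : T.dist w c = 1 := dist_eq_one_iff_adj.2 hc.1
  have h4 : T.dist u c ≤ T.dist u q + T.dist q c := hT.connected.dist_triangle
  have h5 := hw.2
  omega

lemma Dsc_card_succ (hF : IsTreeF T u) (q : W) (s : ℕ) :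
    (Dsc T u q s).ncard * (T.dist u q + s + 1) ≤ (Dsc T u q (s + 1)).ncard := by
  refine fiber_card _ (Dsc_finite hF q (s + 1)) _ (Dsc_finite hF q s) (par T u) _ ?_
  intro w hw
  have h1 : children T u w ⊆ {a ∈ Dsc T u q (s + 1) | par T u a = w} := by
    intro c hc
    exact ⟨child_mem_Dsc hF.isTree hw hc, par_of_mem_children hF.isTree hc⟩
  have h2 := Set.ncard_le_ncard h1 ((Dsc_finite hF q (s + 1)).subset (Set.sep_subset _ _))
  have h3 := children_card hF w
  rw [hw.1] at h3
  exact h3.trans h2

lemma Dsc_card (hF : IsTreeF T u) (q : W) (s : ℕ) :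
    ∏ a ∈ Finset.range s, (T.dist u q + a + 1) ≤ (Dsc T u q s).ncard := by
  induction s with
  | zero =>
    rw [Finset.prod_range_zero]
    exact (Set.ncard_pos (Dsc_finite hF q 0)).2 ⟨q, by simp, by simp⟩
  | succ s ih =>
    rw [Finset.prod_range_succ]
    exact (Nat.mul_le_mul_right _ ih).trans (Dsc_card_succ hF q s)

lemma Dsc_nonempty (hF : IsTreeF T u) (q : W) (s : ℕ) : (Dsc T u q s).Nonempty := by
  rw [← Set.ncard_pos (Dsc_finite hF q s)]
  refine lt_of_lt_of_le ?_ (Dsc_card hF q s)
  apply Finset.prod_pos
  intro i _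
  omega

/-- Descendants through different children are far apart. -/
lemma dist_Dsc_children (hT : T.IsTree) {q c c' e e' : W} {s : ℕ} (hc : c ∈ children T u q)
    (hc' : c' ∈ children T u q) (hne : c ≠ c') (he : e ∈ Dsc T u c s) (he' : e' ∈ Dsc T u c' s) :
    2 * s + 2 ≤ T.dist e e' := by
  obtain ⟨a, b, hab, hpp⟩ := dist_common (u := u) hT e e'
  have h1 := height_par_iter (u := u) hT.connected e a
  have h2 := height_par_iter (u := u) hT.connected e' b
  have h3 : (par T u)^[s] e = c := anc_of_dist hT he.1 he.2
  have h4 : (par T u)^[s] e' = c' := anc_of_dist hT he'.1 he'.2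
  have h5 := he.1
  have h6 := he'.1
  have h7 := hc.2
  have h8 := hc'.2
  by_contra hlt
  push Not at hlt
  have key : ∀ a' b' : ℕ, (par T u)^[a'] e = (par T u)^[b'] e' → a' ≤ s → b' ≤ s → False := by
    intro a' b' h ha hb
    have g1 := height_par_iter (u := u) hT.connected e a'
    have g2 := height_par_iter (u := u) hT.connected e' b'
    rw [h] at g1
    have hab' : a' = b' := by omega
    subst hab'
    apply hne
    rw [← h3, ← h4]
    obtain ⟨k, rfl⟩ := Nat.exists_eq_add_of_le ha
    rw [add_comm, Function.iterate_add_apply, Function.iterate_add_apply, h]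
  rw [hpp] at h1
  exact key a b hpp (by omega) (by omega)

/-! ### Compactness of the boundary (König) -/

/-- The ancestor at height `n`. -/
noncomputable def anc (T : SimpleGraph W) (u : W) (n : ℕ) (w : W) : W :=
  (par T u)^[T.dist u w - n] w

lemma height_anc (hT : T.Connected) {n : ℕ} {w : W} (h : n ≤ T.dist u w) :
    T.dist u (anc T u n w) = n := by
  unfold anc
  rw [height_par_iter hT]
  omega

lemma konig (hF : IsTreeF T u) (q : ℕ → W)
    (hq : Filter.Tendsto (fun k => T.dist u (q k)) Filter.atTop Filter.atTop) :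
    ∃ φ : ℕ → ℕ, StrictMono φ ∧ ∃ a : ℕ → W, ∀ n, n ≤ T.dist u (q (φ n)) ∧
      ∀ j ≤ n, anc T u j (q (φ n)) = a j := by
  classical
  let U : Ultrafilter ℕ := Filter.hyperfilter ℕ
  have hU : (U : Filter ℕ) ≤ Filter.atTop := by
    rw [← Nat.cofinite_eq_atTop]
    exact Filter.hyperfilter_le_cofinite
  have h1 : ∀ j, ∀ᶠ k in (U : Filter ℕ), j ≤ T.dist u (q k) := fun j =>
    hU (hq.eventually (Filter.eventually_ge_atTop j))
  have h2 : ∀ j, ∃ a, ∀ᶠ k in (U : Filter ℕ), anc T u j (q k) = a := by
    intro j
    have h3 : ∀ᶠ k in (U : Filter ℕ), ∃ a ∈ cball T u j, anc T u j (q k) = a := by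
      filter_upwards [h1 j] with k hk
      exact ⟨_, (height_anc hF.isTree.connected hk).le, rfl⟩
    obtain ⟨a, _, ha⟩ := (Ultrafilter.eventually_exists_mem_iff (cball_card hF u j).1).1 h3
    exact ⟨a, ha⟩
  choose a ha using h2
  have h3 : ∀ n, ∃ᶠ k in Filter.atTop, n ≤ T.dist u (q k) ∧ ∀ j ≤ n, anc T u j (q k) = a j := by
    intro n
    have h4 : ∀ᶠ k in (U : Filter ℕ), n ≤ T.dist u (q k) ∧ ∀ j ≤ n, anc T u j (q k) = a j := by
      refine (h1 n).and ?_
      have : ∀ᶠ k in (U : Filter ℕ), ∀ j ∈ Finset.range (n + 1), anc T u j (q k) = a j := by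
        rw [Filter.eventually_all_finset]
        intro j _
        exact ha j
      filter_upwards [this] with k hk j hj
      exact hk j (Finset.mem_range.2 (by omega))
    exact (h4.frequently).filter_mono hU
  obtain ⟨φ, hφ, h5⟩ := Filter.extraction_forall_of_frequently h3
  exact ⟨φ, hφ, a, h5⟩

end count

end Pool.Agent.Helper95.CT
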